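import Mathlib
import Pool.Agent.R993.CE.Final

namespace Pool.Agent.Results.MP_c84763_mp.LargeSums
open MeasureTheory Filter Topology
open scoped ENNReal ContDiff

/-- `ℝᵈ` with the Euclidean norm -/
def Rd (d : ℕ) : Type := EuclideanSpace ℝ (Fin d)

noncomputable instance (d : ℕ) : NormedAddCommGroup (Rd d) :=
  inferInstanceAs (NormedAddCommGroup (EuclideanSpace ℝ (Fin d)))

noncomputable instance (d : ℕ) : NormedSpace ℝ (Rd d) :=
  inferInstanceAs (NormedSpace ℝ (EuclideanSpace ℝ (Fin d)))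

/-- `ℝᵈ` carries Lebesgue measure, Mathlib's `volume` -/
noncomputable instance (d : ℕ) : MeasureSpace (Rd d) :=
  inferInstanceAs (MeasureSpace (EuclideanSpace ℝ (Fin d)))

/-- the unit vector in direction `k` -/
noncomputable def unit {d : ℕ} (k : Fin d) : Rd d :=
  (EuclideanSpace.single k (1 : ℝ) : EuclideanSpace ℝ (Fin d))

/-- `L²(ℝᵈ; ℂ)` -/
def L2 (d : ℕ) : Type := Lp ℂ 2 (volume : Measure (Rd d))

noncomputable instance (d : ℕ) : AddCommGroup (L2 d) :=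
  inferInstanceAs (AddCommGroup (Lp ℂ 2 (volume : Measure (Rd d))))

noncomputable instance (d : ℕ) : Module ℂ (L2 d) :=
  inferInstanceAs (Module ℂ (Lp ℂ 2 (volume : Measure (Rd d))))

/-- the function `u` -/
noncomputable def fn {d : ℕ} (u : L2 d) : Rd d → ℂ :=
  ((show Lp ℂ 2 (volume : Measure (Rd d)) from u) : Rd d → ℂ)

/-- `φ ∈ C_c^∞(ℝᵈ; ℂ)` -/
def IsTest {d : ℕ} (φ : Rd d → ℂ) : Prop := ContDiff ℝ ∞ φ ∧ HasCompactSupport φ

/-- `∂φ/∂x_k` -/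
noncomputable def pd {d : ℕ} (k : Fin d) (φ : Rd d → ℂ) (x : Rd d) : ℂ := fderiv ℝ φ x (unit k)

/-- `g = (g_1, …, g_d)` is the weak gradient of `u` (so `u ∈ H¹(ℝᵈ)`) -/
def IsWeakGrad {d : ℕ} (u : L2 d) (g : Fin d → L2 d) : Prop :=
  ∀ (k : Fin d) (φ : Rd d → ℂ), IsTest φ →
    ∫ x, fn u x * pd k φ x = -∫ x, fn (g k) x * φ x

/-- `u` lies in the form domain `{u ∈ H¹ : |V|^{1/2} u ∈ L²}` and has weak gradient `g` -/
def InDom {d : ℕ} (V : Rd d → ℂ) (u : L2 d) (g : Fin d → L2 d) : Prop :=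
  IsWeakGrad u g ∧ MemLp (fun x => ((√‖V x‖ : ℝ) : ℂ) * fn u x) 2 volume

/-- `∫ conj f · g` -/
noncomputable def pairing {d : ℕ} (f g : Rd d → ℂ) : ℂ := ∫ x, (starRingEnd ℂ) (f x) * g x

/-- the form `h² ∫ conj ∇v · ∇u + ∫ conj v · V u`, with `γ = ∇v`, `g = ∇u` -/
noncomputable def form {d : ℕ} (h : ℝ) (V : Rd d → ℂ) (v u : L2 d) (γ g : Fin d → L2 d) : ℂ :=
  (h : ℂ) ^ 2 * (∑ k, pairing (fn (γ k)) (fn (g k))) + pairing (fn v) (fun x => V x * fn u x)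

/-- `u ∈ D(H)` and `H u = f`, where `H = -h²Δ + V` is the operator of the form
`h² ∫ conj ∇v · ∇u + ∫ conj v · V u` on the form domain -/
def IsHu {d : ℕ} (h : ℝ) (V : Rd d → ℂ) (u f : L2 d) : Prop :=
  ∃ g : Fin d → L2 d, InDom V u g ∧ ∀ (v : L2 d) (γ : Fin d → L2 d), InDom V v γ →
    form h V v u γ g = pairing (fn v) (fn f)

/-- `u` is a generalised eigenvector for `E` (or `0`): `(H - E)ⁿ u = 0` for some `n` -/
def IsGen {d : ℕ} (h : ℝ) (V : Rd d → ℂ) (E : ℂ) (u : L2 d) : Prop :=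
  ∃ (n : ℕ) (c : ℕ → L2 d), c 0 = u ∧ c n = 0 ∧ ∀ i < n, IsHu h V (c i) (c (i + 1) + E • c i)

/-- the generalised eigenspace of `E` -/
noncomputable def genSpace {d : ℕ} (h : ℝ) (V : Rd d → ℂ) (E : ℂ) : Submodule ℂ (L2 d) :=
  Submodule.span ℂ {u | IsGen h V E u}

/-- the algebraic multiplicity of `E` (`0` if `E` is not an eigenvalue) -/
noncomputable def algMult {d : ℕ} (h : ℝ) (V : Rd d → ℂ) (E : ℂ) : ℕ :=
  Module.finrank ℂ (genSpace h V E)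

/-- `δ(E)`, the distance from `E` to the half-line `[0,∞)` -/
noncomputable def delta (E : ℂ) : ℝ := Metric.infDist E {z : ℂ | 0 ≤ z.re ∧ z.im = 0}

/-- `∑_j |E_j|^{-σ} δ(E_j)^{γ+σ}`, each `E` counted with its algebraic multiplicity -/
noncomputable def eigSum {d : ℕ} (h : ℝ) (V : Rd d → ℂ) (γ σ : ℝ) : ℝ≥0∞ :=
  ∑' E : ℂ, (algMult h V E : ℝ≥0∞) * ENNReal.ofReal (‖E‖ ^ (-σ) * delta E ^ (γ + σ))

theorem result (d : ℕ) (hd : 2 ≤ d) (γ : ℝ) (hγ : 0 < γ) :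
    ∃ V : Rd d → ℂ, MemLp V (ENNReal.ofReal (γ + d / 2)) volume ∧ Measurable V ∧
      HasCompactSupport V ∧ (∀ x, 0 ≤ (V x).re ∧ 0 ≤ (V x).im ∧ (V x).im ≤ 1) ∧
      (∀ h : ℝ, 0 < h → ∀ E : ℂ, 0 < delta E → Module.Finite ℂ (genSpace h V E)) ∧
      ∀ σ : ℝ, 0 ≤ σ → σ ≤ d / 2 →
        Tendsto (fun h : ℝ => ENNReal.ofReal (h ^ d) * eigSum h V γ σ) (𝓝[>] 0) (𝓝 ⊤) :=
  R993.CE.final d hd γ hγ

end Pool.Agent.Results.MP_c84763_mp.LargeSums
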